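import Mathlib
import Pool.Agent.Helper13.MX.Block

/-!
# Characters along the powers of an integer
-/

set_option autoImplicit false

open MeasureTheory Finset
open Helper13.MX

namespace Pool.Agent.Helper79.MX

/-- the characters `fourier (k * g ^ b)` -/
noncomputable def ch (k : ℤ) (g : ℕ) (b : ℕ) (x : AddCircle (1 : ℝ)) : ℂ :=
  (fourier (k * (g : ℤ) ^ b) x : ℂ)

/-- `0` or `g ^ b` -/
def pw (g : ℕ) (e : Bool) (b : ℕ) : ℤ := if e then (g : ℤ) ^ b else 0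

/-- the difference `e₁ g ^ b₁ - e₂ g ^ b₂` -/
def df (g : ℕ) (a : (Bool × ℕ) × (Bool × ℕ)) : ℤ := pw g a.1.1 a.1.2 - pw g a.2.1 a.2.2

lemma fourier_mul_pow (m : ℤ) (g b : ℕ) (x : AddCircle (1 : ℝ)) :
    (fourier (m * (g : ℤ) ^ b) x : ℂ) = (fourier m ((g ^ b) • x) : ℂ) := by
  simp only [fourier_apply]
  congr 2
  rw [← natCast_zsmul, smul_smul]
  push_cast
  rfl

lemma norm_fourier (n : ℤ) (x : AddCircle (1 : ℝ)) : ‖(fourier n x : ℂ)‖ = 1 := by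
  rw [fourier_apply, Circle.norm_coe]

variable {μ : Measure (AddCircle (1 : ℝ))}

lemma mp_pow {g : ℕ} (hg : MeasurePreserving (fun x : AddCircle (1 : ℝ) => g • x) μ μ) (b : ℕ) :
    MeasurePreserving (fun x : AddCircle (1 : ℝ) => (g ^ b) • x) μ μ := by
  induction b with
  | zero =>
    have h0 : (fun x : AddCircle (1 : ℝ) => (g ^ 0) • x) = id := by
      funext x
      simp
    rw [h0]
    exact MeasurePreserving.id μ
  | succ b ih =>
    have h := hg.comp ih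
    have h2 : (fun x : AddCircle (1 : ℝ) => (g ^ (b + 1)) • x) =
        (fun x : AddCircle (1 : ℝ) => g • x) ∘ fun x => (g ^ b) • x := by
      funext x
      simp only [Function.comp_apply, smul_smul]
      rw [pow_succ']
    rw [h2]
    exact h

lemma int_fourier {g : ℕ} (hg : MeasurePreserving (fun x : AddCircle (1 : ℝ) => g • x) μ μ)
    (m : ℤ) (b : ℕ) :
    ∫ x, (fourier (m * (g : ℤ) ^ b) x : ℂ) ∂μ = ∫ x, (fourier m x : ℂ) ∂μ := by
  have h := mp_pow hg b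
  have h1 : ∫ x, (fourier m x : ℂ) ∂μ = ∫ x, (fourier m ((g ^ b) • x) : ℂ) ∂μ := by
    conv_lhs => rw [← h.map_eq]
    rw [integral_map h.measurable.aemeasurable (fourier m).continuous.aestronglyMeasurable]
  rw [h1]
  exact integral_congr_ae (Filter.Eventually.of_forall fun x => fourier_mul_pow m g b x)

/-- the characters `fourier (k * g ^ b)` have the mean of `fourier k` -/
theorem good_ch {g : ℕ} (hg : MeasurePreserving (fun x : AddCircle (1 : ℝ) => g • x) μ μ)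
    (k : ℤ) : Good μ (ch k g) (∫ x, (fourier k x : ℂ) ∂μ) where
  meas p := (fourier (k * (g : ℤ) ^ p)).continuous.measurable
  bd _ x := norm_fourier _ x
  int p := int_fourier hg k p

lemma mp_four (h2 : MeasurePreserving (fun x : AddCircle (1 : ℝ) => (2 : ℕ) • x) μ μ) :
    MeasurePreserving (fun x : AddCircle (1 : ℝ) => (4 : ℕ) • x) μ μ := by
  have h := mp_pow h2 2
  norm_num at h
  exact h

lemma ext_ch (k : ℤ) (g : ℕ) (e : Bool) (b : ℕ) (x : AddCircle (1 : ℝ)) :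
    Helper13.MX.ext (ch k g) e b x = (fourier (k * pw g e b) x : ℂ) := by
  unfold Helper13.MX.ext pw ch
  cases e <;> simp

/-- the terms of the square of the deviation -/
theorem tm_ch (k : ℤ) (g : ℕ) (a : (Bool × ℕ) × (Bool × ℕ)) (x : AddCircle (1 : ℝ)) :
    tm (ch k g) a x = (fourier (k * df g a) x : ℂ) := by
  unfold tm df
  rw [ext_ch, ext_ch, mul_sub, sub_eq_add_neg, fourier_add, fourier_neg]
  rfl

lemma int_tm_mul (k : ℤ) (g : ℕ) (a b : (Bool × ℕ) × (Bool × ℕ)) :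
    ∫ x, tm (ch k g) a x * tm (ch k g) b x ∂μ =
      ∫ x, (fourier (k * (df g a + df g b)) x : ℂ) ∂μ := by
  refine integral_congr_ae (Filter.Eventually.of_forall fun x => ?_)
  simp only [tm_ch]
  rw [mul_add, fourier_add]

lemma int_tm (k : ℤ) (g : ℕ) (a : (Bool × ℕ) × (Bool × ℕ)) :
    ∫ x, tm (ch k g) a x ∂μ = ∫ x, (fourier (k * df g a) x : ℂ) ∂μ :=
  integral_congr_ae (Filter.Eventually.of_forall fun x => tm_ch k g a x)

/-- mixing of order four of the character `fourier k` along the powers of `g`, at the rate `ρ` -/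
def Mix4 (μ : Measure (AddCircle (1 : ℝ))) (k : ℤ) (g : ℕ) (γ : ℝ) (ρ : ℕ → ℝ) : Prop :=
  ∀ (D : ℕ) (a b : (Bool × ℕ) × (Bool × ℕ)),
    |(a.1.2 : ℝ) - a.2.2| ≤ (D : ℝ) ^ γ → |(b.1.2 : ℝ) - b.2.2| ≤ (D : ℝ) ^ γ →
    (D : ℝ) ≤ |(a.1.2 : ℝ) - b.1.2| → (D : ℝ) ≤ |(a.1.2 : ℝ) - b.2.2| →
    (D : ℝ) ≤ |(a.2.2 : ℝ) - b.1.2| → (D : ℝ) ≤ |(a.2.2 : ℝ) - b.2.2| →
    ‖∫ x, (fourier (k * (df g a + df g b)) x : ℂ) ∂μ -
      (∫ x, (fourier (k * df g a) x : ℂ) ∂μ) * ∫ x, (fourier (k * df g b) x : ℂ) ∂μ‖ ≤ ρ D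

/-- the same for the terms of the squares of the deviations -/
def HMix (μ : Measure (AddCircle (1 : ℝ))) (u : ℕ → AddCircle (1 : ℝ) → ℂ) (γ : ℝ)
    (ρ : ℕ → ℝ) : Prop :=
  ∀ (D : ℕ) (a b : (Bool × ℕ) × (Bool × ℕ)),
    |(a.1.2 : ℝ) - a.2.2| ≤ (D : ℝ) ^ γ → |(b.1.2 : ℝ) - b.2.2| ≤ (D : ℝ) ^ γ →
    (D : ℝ) ≤ |(a.1.2 : ℝ) - b.1.2| → (D : ℝ) ≤ |(a.1.2 : ℝ) - b.2.2| →
    (D : ℝ) ≤ |(a.2.2 : ℝ) - b.1.2| → (D : ℝ) ≤ |(a.2.2 : ℝ) - b.2.2| →
    ‖∫ x, tm u a x * tm u b x ∂μ - (∫ x, tm u a x ∂μ) * ∫ x, tm u b x ∂μ‖ ≤ ρ D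

/-- The hypothesis for the powers of `g` themselves (used for `g = 3`). -/
theorem hmix_ch {k : ℤ} {g : ℕ} {γ : ℝ} {ρ : ℕ → ℝ} (h : Mix4 μ k g γ ρ) :
    HMix μ (ch k g) γ ρ := by
  intro D a b h1 h2 h3 h4 h5 h6
  rw [int_tm_mul, int_tm, int_tm]
  exact h D a b h1 h2 h3 h4 h5 h6

/-- doubling of the exponents -/
def dbl (a : (Bool × ℕ) × (Bool × ℕ)) : (Bool × ℕ) × (Bool × ℕ) :=
  ((a.1.1, 2 * a.1.2), (a.2.1, 2 * a.2.2))

lemma pw_sq (g : ℕ) (e : Bool) (b : ℕ) : pw (g ^ 2) e b = pw g e (2 * b) := by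
  unfold pw
  cases e
  · rfl
  · simp only [if_true]
    rw [pow_mul]
    push_cast
    rfl

lemma df_sq (g : ℕ) (a : (Bool × ℕ) × (Bool × ℕ)) : df (g ^ 2) a = df g (dbl a) := by
  unfold df dbl
  rw [pw_sq, pw_sq]

lemma exists_big {γ γ' : ℝ} (h : γ' < γ) :
    ∃ D₀ : ℕ, ∀ D : ℕ, D₀ ≤ D → 2 * (D : ℝ) ^ γ' ≤ (2 * D : ℝ) ^ γ := by
  have h1 : Filter.Tendsto (fun D : ℕ => (D : ℝ) ^ (γ - γ')) Filter.atTop Filter.atTop :=
    (tendsto_rpow_atTop (by linarith : 0 < γ - γ')).comp tendsto_natCast_atTop_atTop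
  obtain ⟨D₀, hD₀⟩ := Filter.eventually_atTop.1 (h1.eventually_ge_atTop (2 / (2 : ℝ) ^ γ))
  refine ⟨max D₀ 1, fun D hD => ?_⟩
  have hD1 : (0 : ℝ) < D := by
    have : 1 ≤ D := le_trans (le_max_right _ _) hD
    exact_mod_cast this
  have h2 := hD₀ D (le_trans (le_max_left _ _) hD)
  have h3 : (0 : ℝ) < (2 : ℝ) ^ γ := by positivity
  rw [div_le_iff₀ h3] at h2
  rw [Real.mul_rpow (by norm_num) hD1.le]
  have h4 : (D : ℝ) ^ γ = (D : ℝ) ^ (γ - γ') * (D : ℝ) ^ γ' := by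
    rw [← Real.rpow_add hD1]
    congr 1
    ring
  rw [h4]
  have h5 : (0 : ℝ) < (D : ℝ) ^ γ' := by positivity
  nlinarith

variable [IsProbabilityMeasure μ]

lemma norm_int_le (n : ℤ) : ‖∫ x, (fourier n x : ℂ) ∂μ‖ ≤ 1 := by
  have h := norm_integral_le_of_norm_le_const (μ := μ) (f := fun x => (fourier n x : ℂ)) (C := 1)
    (Filter.Eventually.of_forall fun x => (norm_fourier n x).le)
  simpa using h

/-- The hypothesis for the powers of `g ^ 2`, from the hypothesis for the powers of `g`. -/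
theorem hmix_sq {k : ℤ} {g : ℕ} {γ : ℝ} {ρ : ℕ → ℝ} (hγ : 1 / 2 < γ) (hρ : Antitone ρ)
    (hs : Summable ρ) (h : Mix4 μ k g γ ρ) :
    ∃ (γ' : ℝ) (ρ' : ℕ → ℝ), 1 / 2 < γ' ∧ Antitone ρ' ∧ Summable ρ' ∧
      HMix μ (ch k (g ^ 2)) γ' ρ' := by
  set γ' : ℝ := (1 / 2 + γ) / 2 with hγ'
  obtain ⟨D₀, hD₀⟩ := exists_big (γ := γ) (γ' := γ') (by rw [hγ']; linarith)
  refine ⟨γ', fun D => if D < D₀ then max 2 (ρ 0) else ρ D, by rw [hγ']; linarith, ?_, ?_, ?_⟩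
  · intro D E hDE
    simp only
    split_ifs with h1 h2 h2
    · exact le_rfl
    · omega
    · exact (hρ (Nat.zero_le E)).trans (le_max_right _ _)
    · exact hρ hDE
  · refine (summable_congr_cofinite ?_).1 hs
    rw [Nat.cofinite_eq_atTop]
    filter_upwards [Filter.eventually_ge_atTop D₀] with D hD
    rw [if_neg (by omega)]
  · intro D a b h1 h2 h3 h4 h5 h6
    rw [int_tm_mul, int_tm, int_tm]
    show _ ≤ (if D < D₀ then max 2 (ρ 0) else ρ D)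
    by_cases hD : D < D₀
    · rw [if_pos hD]
      refine le_trans ?_ (le_max_left _ _)
      refine (norm_sub_le _ _).trans ?_
      rw [norm_mul]
      have e1 := norm_int_le (μ := μ) (k * (df (g ^ 2) a + df (g ^ 2) b))
      have e2 := norm_int_le (μ := μ) (k * df (g ^ 2) a)
      have e3 := norm_int_le (μ := μ) (k * df (g ^ 2) b)
      have e4 := mul_le_mul e2 e3 (norm_nonneg _) zero_le_one
      linarith
    · rw [if_neg hD]
      push Not at hD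
      have hb := hD₀ D hD
      rw [df_sq, df_sq]
      have hD' : ((2 * D : ℕ) : ℝ) = 2 * (D : ℝ) := by push_cast; ring
      have key : ∀ x y : ℕ, |((2 * x : ℕ) : ℝ) - ((2 * y : ℕ) : ℝ)| = 2 * |(x : ℝ) - y| := by
        intro x y
        push_cast
        rw [← mul_sub, abs_mul, abs_two]
      have h7 := h (2 * D) (dbl a) (dbl b)
      simp only [dbl, key, hD'] at h7
      refine (h7 ?_ ?_ ?_ ?_ ?_ ?_).trans (hρ (by omega))
      · exact (mul_le_mul_of_nonneg_left h1 (by norm_num)).trans hb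
      · exact (mul_le_mul_of_nonneg_left h2 (by norm_num)).trans hb
      · linarith
      · linarith
      · linarith
      · linarith

/-- The hypothesis for the powers of `4`, from the hypothesis for the powers of `2`. -/
theorem hmix_four {k : ℤ} {γ : ℝ} {ρ : ℕ → ℝ} (hγ : 1 / 2 < γ) (hρ : Antitone ρ)
    (hs : Summable ρ) (h : Mix4 μ k 2 γ ρ) :
    ∃ (γ' : ℝ) (ρ' : ℕ → ℝ), 1 / 2 < γ' ∧ Antitone ρ' ∧ Summable ρ' ∧
      HMix μ (ch k 4) γ' ρ' :=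
  hmix_sq (g := 2) hγ hρ hs h

end Pool.Agent.Helper79.MX
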