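import Mathlib
import Pool.Agent.Helper87.MX.Fr
import Pool.Agent.Helper79.MX.Char
import Pool.Agent.Helper13.MX.Rows

/-!
# The blocks
-/

set_option autoImplicit false

open MeasureTheory Finset

namespace Pool.Agent.Helper79.MX

open Helper13.MX
open Pool.Agent.Helper87.MX (Tor cf Inv rav good3 S_BL)

/-- the blocks in a row (statement) -/
def Rows : Prop := ∀ (μ : Measure Tor), IsProbabilityMeasure μ →
  ∀ (u : ℕ → Tor → ℂ) (c : ℂ) (ρ : ℕ → ℝ) (γ : ℝ), Good μ u c → c ≠ 0 → Antitone ρ →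
  Summable ρ → 1 / 2 < γ → HMix μ u γ ρ →
  ∃ F : ℕ → Fin 3 → Finset ℕ, (∀ j i, (F j i).Nonempty) ∧ (∀ j i, ∀ b ∈ F j i, 2 * b ≤ j) ∧
    ∀ δ : ℝ, 0 < δ → Summable fun j => μ.real {x | ∃ i l : Fin 3, i ≠ l ∧
      δ ≤ ‖mean u (F j i) x / c - 1‖ ∧ δ ≤ ‖mean u (F j l) x / c - 1‖}

/-- `0` or `1` -/
def bi (e : Bool) : ℤ := if e then 1 else 0

lemma bi_or (e : Bool) : bi e = 0 ∨ bi e = 1 := by
  unfold bi
  cases e <;> simp

lemma pw_eq (g : ℕ) (e : Bool) (b : ℕ) : pw g e b = bi e * (g : ℤ) ^ b := by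
  unfold pw bi
  cases e <;> simp

lemma mix4_of {μ : Measure Tor} {g k : ℕ}
    (h : Pool.Agent.Helper87.MX.Mix4 (cf μ) g k) :
    ∃ (ρ : ℕ → ℝ) (γ : ℝ), Antitone ρ ∧ Summable ρ ∧ 1 / 2 < γ ∧ Mix4 μ k g γ ρ := by
  obtain ⟨ρ, γ, h1, h2, h3, h4⟩ := h
  refine ⟨ρ, γ, h1, h2, h3, fun D a b g1 g2 g3 g4 g5 g6 => ?_⟩
  have h5 := h4 a.1.2 a.2.2 b.1.2 b.2.2 D (bi a.1.1) (bi a.2.1) (bi b.1.1) (bi b.2.1)
    (bi_or _) (bi_or _) (bi_or _) (bi_or _) g1 g2 g3 g4 g5 g6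
  unfold df
  rw [pw_eq, pw_eq, pw_eq, pw_eq]
  exact h5

lemma rav_image (g k : ℕ) (F : Finset ℕ) (x : Tor) :
    rav g k (F.image fun b => 2 * b) x = mean (ch k (g ^ 2)) F x := by
  unfold rav mean
  rw [Finset.sum_image (fun a _ b _ hab => by simpa using hab),
    Finset.card_image_of_injective _ (fun a b hab => by simpa using hab)]
  congr 1
  refine Finset.sum_congr rfl fun b _ => ?_
  unfold ch
  congr 2
  push_cast
  rw [pow_mul]

lemma compl_good3 (g k : ℕ) {c : ℂ} (hc : c ≠ 0) (F : Fin 3 → Finset ℕ) :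
    (good3 g k c fun i => (F i).image fun b => 2 * b)ᶜ ⊆ {x | ∃ i l : Fin 3, i ≠ l ∧
      1 / 2 ≤ ‖mean (ch k (g ^ 2)) (F i) x / c - 1‖ ∧
      1 / 2 ≤ ‖mean (ch k (g ^ 2)) (F l) x / c - 1‖} := by
  intro x hx
  have hcn : 0 < ‖c‖ := norm_pos_iff.2 hc
  have hbad : ∀ i : Fin 3, ¬ ‖rav g k ((F i).image fun b => 2 * b) x - c‖ < ‖c‖ / 2 →
      1 / 2 ≤ ‖mean (ch k (g ^ 2)) (F i) x / c - 1‖ := by
    intro i hi
    rw [rav_image] at hi
    have h1 : mean (ch k (g ^ 2)) (F i) x / c - 1 = (mean (ch k (g ^ 2)) (F i) x - c) / c := by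
      field_simp
    rw [h1, norm_div, le_div_iff₀ hcn]
    linarith
  have h2 : ∀ i j : Fin 3, i ≠ j →
      ¬ ‖rav g k ((F i).image fun b => 2 * b) x - c‖ < ‖c‖ / 2 ∨
      ¬ ‖rav g k ((F j).image fun b => 2 * b) x - c‖ < ‖c‖ / 2 := by
    intro i j hij
    by_contra hcon
    push Not at hcon
    exact hx ⟨i, j, hij, hcon.1, hcon.2⟩
  by_cases h0 : ‖rav g k ((F 0).image fun b => 2 * b) x - c‖ < ‖c‖ / 2
  · have h3 := (h2 0 1 (by decide)).resolve_left (by simpa using h0)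
    have h4 := (h2 0 2 (by decide)).resolve_left (by simpa using h0)
    exact ⟨1, 2, by decide, hbad 1 h3, hbad 2 h4⟩
  · rcases h2 1 2 (by decide) with h3 | h3
    · exact ⟨0, 1, by decide, hbad 0 h0, hbad 1 h3⟩
    · exact ⟨0, 2, by decide, hbad 0 h0, hbad 2 h3⟩

theorem s_BL_of (hR : Rows) : S_BL := by
  intro μ hμ g k _ hinv hc hmix
  obtain ⟨ρ, γ, h1, h2, h3, h4⟩ := mix4_of hmix
  obtain ⟨γ', ρ', h5, h6, h7, h8⟩ := hmix_sq h3 h1 h2 h4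
  have hinv2 : MeasurePreserving (fun x : Tor => (g ^ 2) • x) μ μ := mp_pow hinv 2
  obtain ⟨F, -, hF2, hF3⟩ := hR μ hμ (ch k (g ^ 2)) (cf μ k) ρ' γ' (good_ch hinv2 k) hc h6 h7 h5 h8
  refine ⟨fun j i => (F j i).image fun b => 2 * b,
    fun j => μ.real (good3 g k (cf μ k) fun i => (F j i).image fun b => 2 * b)ᶜ, ?_, ?_, ?_, ?_⟩
  · refine Summable.of_nonneg_of_le (fun j => measureReal_nonneg) (fun j => ?_)
      (hF3 (1 / 2) (by norm_num))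
    exact measureReal_mono (compl_good3 g k hc (F j))
  · exact fun j => ⟨measureReal_nonneg, measureReal_le_one⟩
  · intro j i b hb
    simp only [Finset.mem_image] at hb
    obtain ⟨b', hb', rfl⟩ := hb
    exact ⟨hF2 j i b' hb', even_two_mul b'⟩
  · exact fun j => le_rfl

theorem rows_tor : Rows := by
  intro μ hμ u c ρ γ hg hc h1 h2 h3 h4
  obtain ⟨F, hF, hS⟩ := Helper13.MX.rows hg hc h1 h2 h3 h4
  exact ⟨F, fun j i => (hF j i).1, fun j i => (hF j i).2, hS⟩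

/-- BL: the blocks -/
theorem s_BL : S_BL := s_BL_of rows_tor

end Pool.Agent.Helper79.MX
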