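import Pool.Agent.Helper21.MX.Hm
import Pool.Agent.Helper64.PL.Levels

/-!
# MIX, piece (H): hidden levels do not change the sign of a polynomial (masks of hash values)

The values of the elements of `S` are `L * ∑ i, Y ^ (k - 1 - i) * u i (hash value on level i) + noise`, with
independent masks `u` of the hash values. If only the levels revealed by `hm` are kept, the sign of a polynomial
of degree at most `d` in each variable changes for a proportion of at most `|S| d / M` of the masks. The elements
are treated in the order of their level of loss.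
-/

set_option autoImplicit false

namespace Pool.Agent.Helper21.MX

open Finset
open Pool.Agent.Helper23.SP (pre Om g put)
open Pool.Agent.Helper64.PL (one_mask line line_eval line_natDegree tail_lt)

/-! ## One mask changed -/

section masks

variable {k U M : ℕ}

/-- Change the mask of one hash value. -/
def updH (u : Fin k → Fin U → Fin M) (i : Fin k) (c : Fin U) (t : Fin M) : Fin k → Fin U → Fin M :=
  Function.update u i (Function.update (u i) c t)

theorem updH_same (u : Fin k → Fin U → Fin M) (i : Fin k) (c : Fin U) (t : Fin M) :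
    updH u i c t i c = t := by
  unfold updH
  rw [Function.update_self, Function.update_self]

theorem updH_of_ne (u : Fin k → Fin U → Fin M) (i : Fin k) (c : Fin U) (t : Fin M) {j : Fin k}
    {c' : Fin U} (h : j ≠ i ∨ c' ≠ c) : updH u i c t j c' = u j c' := by
  unfold updH
  by_cases hj : j = i
  · subst hj
    rw [Function.update_self, Function.update_of_ne (h.resolve_left (fun h => h rfl))]
  · rw [Function.update_of_ne hj]

theorem updH_updH (u : Fin k → Fin U → Fin M) (i : Fin k) (c : Fin U) (t t' : Fin M) :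
    updH (updH u i c t) i c t' = updH u i c t' := by
  funext j c'
  by_cases h : j ≠ i ∨ c' ≠ c
  · rw [updH_of_ne _ _ _ _ h, updH_of_ne _ _ _ _ h, updH_of_ne _ _ _ _ h]
  · push Not at h
    obtain ⟨rfl, rfl⟩ := h
    rw [updH_same, updH_same]

theorem updH_self (u : Fin k → Fin U → Fin M) (i : Fin k) (c : Fin U) :
    updH u i c (u i c) = u := by
  funext j c'
  by_cases h : j ≠ i ∨ c' ≠ c
  · rw [updH_of_ne _ _ _ _ h]
  · push Not at h
    obtain ⟨rfl, rfl⟩ := h
    rw [updH_same]

/-- Averaging over one mask. -/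
theorem avg_maskH {d : ℕ} (P : (Fin k → Fin U → Fin M) → Prop) [DecidablePred P] (i : Fin k)
    (c : Fin U) (h : ∀ u, (univ.filter fun t => P (updH u i c t)).card ≤ d) :
    (univ.filter P).card * M ≤ d * Fintype.card (Fin k → Fin U → Fin M) := by
  have h1 : ((univ.filter P) ×ˢ (univ : Finset (Fin M))).card ≤
      ((univ : Finset (Fin k → Fin U → Fin M)).sigma fun u =>
        univ.filter fun t => P (updH u i c t)).card := by
    refine card_le_card_of_injOn (fun z => ⟨updH z.1 i c z.2, z.1 i c⟩) ?_ ?_
    · rintro ⟨u, t⟩ hz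
      rw [mem_coe, mem_product, mem_filter] at hz
      rw [mem_coe, mem_sigma, mem_filter]
      refine ⟨mem_univ _, mem_univ _, ?_⟩
      show P (updH (updH u i c t) i c (u i c))
      rw [updH_updH, updH_self]
      exact hz.1.2
    · rintro ⟨u, t⟩ - ⟨u', t'⟩ - hz
      simp only [Sigma.mk.injEq, heq_eq_eq] at hz
      obtain ⟨h2, h3⟩ := hz
      have h4 : t = t' := by
        have := congrFun (congrFun h2 i) c
        rwa [updH_same, updH_same] at this
      have h5 : u = u' := by
        have := congrArg (fun v => updH v i c (u i c)) h2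
        simp only [updH_updH] at this
        rw [updH_self, h3, updH_self] at this
        exact this
      rw [h4, h5]
  rw [card_product, card_univ, Fintype.card_fin] at h1
  refine h1.trans ?_
  rw [card_sigma, mul_comm d, ← card_univ, ← smul_eq_mul, ← sum_const]
  exact sum_le_sum fun u _ => h u

end masks

/-! ## The hybrid argument -/

section hybrid

variable {El : Type} [DecidableEq El] {k b U M : ℕ} [NeZero b]

/-- The value of an element. -/
def fvH (L Y : ℕ) (u : Fin k → Fin U → Fin M) (ω : Om El k b U) (nu : El → ℤ) (e : El) : ℤ :=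
  (L : ℤ) * (∑ i : Fin k, (Y : ℤ) ^ (k - 1 - i.val) * ((u i (g i ω e) : ℕ) : ℤ)) + nu e

open Classical in
/-- The revealed part of the value of an element. -/
noncomputable def rvH (L Y : ℕ) (S : Finset El) (u : Fin k → Fin U → Fin M) (ω : Om El k b U)
    (nu : El → ℤ) (e : El) : ℤ :=
  (∑ i : Fin k, if e ∈ hm S ω i.val then
      (L : ℤ) * (Y : ℤ) ^ (k - 1 - i.val) * ((u i (g i ω e) : ℕ) : ℤ)
    else 0) +
  (if e ∈ hm S ω k then nu e else 0)

/-- The values of the elements when those of `T` are replaced by their revealed parts. -/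
noncomputable def wvH (L Y : ℕ) (S T : Finset El) (u : Fin k → Fin U → Fin M) (ω : Om El k b U)
    (nu : El → ℤ) (y : El → ℝ) (e : El) : ℝ :=
  if e ∈ S then (if e ∈ T then (rvH L Y S u ω nu e : ℝ) else (fvH L Y u ω nu e : ℝ)) else y e

theorem rvH_eq_fvH {L Y : ℕ} {S : Finset El} {u : Fin k → Fin U → Fin M} {ω : Om El k b U}
    {nu : El → ℤ} {e : El} (h : e ∈ hm S ω k) : rvH L Y S u ω nu e = fvH L Y u ω nu e := by
  unfold rvH fvH
  rw [if_pos h, mul_sum]
  congr 1
  refine sum_congr rfl fun i _ => ?_
  rw [if_pos (hm_anti S ω i.isLt.le h), mul_assoc]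

open Classical in
/-- The number of levels on which an element is revealed. -/
noncomputable def lvH (S : Finset El) (ω : Om El k b U) (e : El) : ℕ :=
  ((range (k + 1)).filter fun r => e ∈ hm S ω r).card

theorem mem_hm_of_lvH {S : Finset El} {ω : Om El k b U} {e e' : El} {r : ℕ} (hr : r ≤ k)
    (he : e ∈ hm S ω r) (h : lvH S ω e ≤ lvH S ω e') : e' ∈ hm S ω r := by
  classical
  by_contra h1
  have h2 : r + 1 ≤ lvH S ω e := by
    unfold lvH
    have h3 : range (r + 1) ⊆ (range (k + 1)).filter fun r => e ∈ hm S ω r := by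
      intro j hj
      rw [mem_range] at hj
      rw [mem_filter, mem_range]
      exact ⟨by omega, hm_anti S ω (by omega) he⟩
    have h4 := card_le_card h3
    rw [card_range] at h4
    exact h4
  have h5 : lvH S ω e' ≤ r := by
    unfold lvH
    have h3 : ((range (k + 1)).filter fun r => e' ∈ hm S ω r) ⊆ range r := by
      intro j hj
      rw [mem_filter] at hj
      rw [mem_range]
      by_contra h6
      exact h1 (hm_anti S ω (by omega) hj.2)
    have h4 := card_le_card h3
    rw [card_range] at h4
    exact h4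
  omega

open Classical in
/-- One step of the hybrid argument: the elements of `S` outside `T` are lost later than `e`. -/
theorem stepH {L Y d : ℕ} (hY : M ≤ Y) (S T : Finset El) (ω : Om El k b U) (nu : El → ℤ)
    (hnu : ∀ e ∈ S, 0 ≤ nu e ∧ nu e < L) (y : El → ℝ) (p : MvPolynomial El ℝ) {e : El} (he : e ∈ S)
    (heT : e ∉ T) (hT : ∀ e' ∈ S, e' ∉ insert e T → lvH S ω e ≤ lvH S ω e') (hp : p.degreeOf e ≤ d) :
    (univ.filter fun u : Fin k → Fin U → Fin M =>
      SignType.sign (MvPolynomial.eval (wvH L Y S T u ω nu y) p) ≠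
        SignType.sign (MvPolynomial.eval (wvH L Y S (insert e T) u ω nu y) p)).card * M ≤
      d * Fintype.card (Fin k → Fin U → Fin M) := by
  by_cases hk : e ∈ hm S ω k
  · have h1 : ∀ u : Fin k → Fin U → Fin M,
        wvH L Y S T u ω nu y = wvH L Y S (insert e T) u ω nu y := by
      intro u
      funext e'
      unfold wvH
      by_cases h2 : e' = e
      · subst h2
        rw [if_pos he, if_neg heT, if_pos he, if_pos (mem_insert_self _ _), rvH_eq_fvH hk]
      · have h3 : e' ∈ insert e T ↔ e' ∈ T := by
          rw [mem_insert]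
          exact ⟨fun h => h.resolve_left h2, fun h => Or.inr h⟩
        simp only [h3]
    have h2 : (univ.filter fun u : Fin k → Fin U → Fin M =>
      SignType.sign (MvPolynomial.eval (wvH L Y S T u ω nu y) p) ≠
        SignType.sign (MvPolynomial.eval (wvH L Y S (insert e T) u ω nu y) p)) = ∅ := by
      rw [filter_eq_empty_iff]
      intro u _
      rw [h1 u]
      exact fun h => h rfl
    rw [h2, card_empty, zero_mul]
    exact Nat.zero_le _
  obtain ⟨i, hi1, hi2⟩ := exists_level he hk
  refine avg_maskH (fun u => SignType.sign (MvPolynomial.eval (wvH L Y S T u ω nu y) p) ≠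
    SignType.sign (MvPolynomial.eval (wvH L Y S (insert e T) u ω nu y) p)) i (g i ω e) fun u => ?_
  -- the masks of the other elements
  have hcell : ∀ e', (e' ∈ hm S ω i.val ∧ e' ≠ e) → ∀ (t : Fin M) (j : Fin k),
      updH u i (g i ω e) t j (g j ω e') = u j (g j ω e') := by
    intro e' he' t j
    refine updH_of_ne _ _ _ _ ?_
    by_cases h2 : j = i
    · subst h2
      exact Or.inr (ne_of_lost hi1 hi2 he'.1 he'.2)
    · exact Or.inl h2
  have hfv : ∀ e' ∈ S, e' ∉ insert e T → ∀ t : Fin M,
      fvH L Y (updH u i (g i ω e) t) ω nu e' = fvH L Y u ω nu e' := by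
    intro e' he' h1 t
    have h2 : e' ∈ hm S ω i.val := mem_hm_of_lvH i.isLt.le hi1 (hT e' he' h1)
    have h3 : e' ≠ e := fun h => h1 (by rw [h]; exact mem_insert_self e T)
    unfold fvH
    rw [sum_congr rfl fun j _ => by rw [hcell e' ⟨h2, h3⟩ t j]]
  have hrv : ∀ e' ∈ S, e' ≠ e → ∀ t : Fin M,
      rvH L Y S (updH u i (g i ω e) t) ω nu e' = rvH L Y S u ω nu e' := by
    intro e' he' h1 t
    unfold rvH
    congr 1
    refine sum_congr rfl fun j _ => ?_
    by_cases h2 : e' ∈ hm S ω j.val
    · rw [if_pos h2, if_pos h2]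
      by_cases h3 : j = i
      · subst h3
        rw [hcell e' ⟨h2, h1⟩ t j]
      · rw [updH_of_ne _ _ _ _ (Or.inl h3)]
    · rw [if_neg h2, if_neg h2]
  -- the values of `e`
  set σ : ℤ := (L : ℤ) * (Y : ℤ) ^ (k - 1 - i.val) with hσ
  set A : ℤ := ∑ j : Fin k, if j.val < i.val then
    (L : ℤ) * (Y : ℤ) ^ (k - 1 - j.val) * ((u j (g j ω e) : ℕ) : ℤ) else 0 with hA
  set B : ℤ := (∑ j : Fin k, if i.val < j.val then
    (L : ℤ) * (Y : ℤ) ^ (k - 1 - j.val) * ((u j (g j ω e) : ℕ) : ℤ) else 0) + nu e with hB
  have hB0 : 0 ≤ B := by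
    refine add_nonneg (sum_nonneg fun j _ => ?_) (hnu e he).1
    split_ifs
    · positivity
    · exact le_rfl
  have hBσ : B < σ := tail_lt hY i (fun j => u j (g j ω e)) (nu e) (hnu e he).2
  have hrve : ∀ t : Fin M, rvH L Y S (updH u i (g i ω e) t) ω nu e = A + σ * ((t : ℕ) : ℤ) := by
    intro t
    unfold rvH
    rw [if_neg hk, add_zero, hA]
    have h2 : σ * ((t : ℕ) : ℤ) = ∑ j : Fin k, if j = i then σ * ((t : ℕ) : ℤ) else 0 := by
      rw [sum_ite_eq' univ i, if_pos (mem_univ _)]
    rw [h2, ← sum_add_distrib]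
    refine sum_congr rfl fun j _ => ?_
    rcases lt_trichotomy j.val i.val with h3 | h3 | h3
    · have h4 : j ≠ i := fun h => by rw [h] at h3; exact lt_irrefl _ h3
      rw [if_pos (hm_anti S ω h3.le hi1), if_pos h3, if_neg h4, add_zero,
        updH_of_ne _ _ _ _ (Or.inl h4)]
    · have h4 : j = i := Fin.ext h3
      subst h4
      rw [if_pos hi1, if_neg (lt_irrefl _), if_pos rfl, updH_same, zero_add]
    · have h4 : j ≠ i := fun h => by rw [h] at h3; exact lt_irrefl _ h3
      rw [if_neg (fun h => hi2 (hm_anti S ω h3 h)), if_neg (not_lt.2 h3.le), if_neg h4, add_zero]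
  have hfve : ∀ t : Fin M,
      fvH L Y (updH u i (g i ω e) t) ω nu e = A + σ * ((t : ℕ) : ℤ) + B := by
    intro t
    unfold fvH
    rw [hA, hB, mul_sum]
    have h2 : σ * ((t : ℕ) : ℤ) = ∑ j : Fin k, if j = i then σ * ((t : ℕ) : ℤ) else 0 := by
      rw [sum_ite_eq' univ i, if_pos (mem_univ _)]
    rw [h2, ← add_assoc, ← sum_add_distrib, ← sum_add_distrib]
    congr 1
    refine sum_congr rfl fun j _ => ?_
    rcases lt_trichotomy j.val i.val with h3 | h3 | h3
    · have h4 : j ≠ i := fun h => by rw [h] at h3; exact lt_irrefl _ h3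
      rw [if_pos h3, if_neg h4, if_neg (not_lt.2 h3.le), updH_of_ne _ _ _ _ (Or.inl h4)]
      ring
    · have h4 : j = i := Fin.ext h3
      subst h4
      rw [if_neg (lt_irrefl _), if_pos rfl, updH_same]
      ring
    · have h4 : j ≠ i := fun h => by rw [h] at h3; exact lt_irrefl _ h3
      rw [if_neg (not_lt.2 h3.le), if_neg h4, if_pos h3, updH_of_ne _ _ _ _ (Or.inl h4)]
      ring
  -- the values of the other elements
  have hoth : ∀ (t : Fin M) (e' : El), e' ≠ e →
      wvH L Y S T (updH u i (g i ω e) t) ω nu y e' = wvH L Y S T u ω nu y e' := by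
    intro t e' h1
    unfold wvH
    by_cases h2 : e' ∈ S
    · rw [if_pos h2, if_pos h2]
      by_cases h3 : e' ∈ T
      · rw [if_pos h3, if_pos h3, hrv e' h2 h1 t]
      · have h4 : e' ∉ insert e T := by
          rw [mem_insert]
          exact fun h => h.elim h1 h3
        rw [if_neg h3, if_neg h3, hfv e' h2 h4 t]
    · rw [if_neg h2, if_neg h2]
  -- the polynomial in the value of `e`
  have hw1 : ∀ t : Fin M, wvH L Y S T (updH u i (g i ω e) t) ω nu y =
      Function.update (wvH L Y S T u ω nu y) e ((A : ℝ) + (σ : ℝ) * (t : ℕ) + (B : ℝ)) := by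
    intro t
    funext e'
    by_cases h1 : e' = e
    · subst h1
      rw [Function.update_self]
      unfold wvH
      rw [if_pos he, if_neg heT, hfve t]
      push_cast
      ring
    · rw [Function.update_of_ne h1]
      exact hoth t e' h1
  have hw2 : ∀ t : Fin M, wvH L Y S (insert e T) (updH u i (g i ω e) t) ω nu y =
      Function.update (wvH L Y S T u ω nu y) e ((A : ℝ) + (σ : ℝ) * (t : ℕ)) := by
    intro t
    funext e'
    by_cases h1 : e' = e
    · subst h1
      rw [Function.update_self]
      unfold wvH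
      rw [if_pos he, if_pos (mem_insert_self _ _), hrve t]
      push_cast
      ring
    · rw [Function.update_of_ne h1, ← hoth t e' h1]
      have h3 : e' ∈ insert e T ↔ e' ∈ T := by
        rw [mem_insert]
        exact ⟨fun h => h.resolve_left h1, fun h => Or.inr h⟩
      unfold wvH
      simp only [h3]
  have key := one_mask (M := M) (line p (wvH L Y S T u ω nu y) e) ((line_natDegree _ _ _).trans hp)
    (A : ℝ) (σ : ℝ) (B : ℝ) (by exact_mod_cast hB0) (by exact_mod_cast hBσ)
  refine le_trans (card_le_card ?_) key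
  intro t ht
  rw [mem_filter] at ht ⊢
  refine ⟨mem_univ _, ?_⟩
  have h1 := ht.2
  rw [hw1 t, hw2 t, ← line_eval, ← line_eval] at h1
  exact h1

open Classical in
/-- The hybrid argument, for initial parts `T` of `S` in the order of the level of loss. -/
theorem hybridH_aux {L Y d : ℕ} (hY : M ≤ Y) (S : Finset El) (ω : Om El k b U) (nu : El → ℤ)
    (hnu : ∀ e ∈ S, 0 ≤ nu e ∧ nu e < L) (y : El → ℝ) (p : MvPolynomial El ℝ)
    (hp : ∀ e ∈ S, p.degreeOf e ≤ d) (T : Finset El) : T ⊆ S →
    (∀ e ∈ T, ∀ e' ∈ S, e' ∉ T → lvH S ω e ≤ lvH S ω e') →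
    (univ.filter fun u : Fin k → Fin U → Fin M =>
      SignType.sign (MvPolynomial.eval (wvH L Y S ∅ u ω nu y) p) ≠
        SignType.sign (MvPolynomial.eval (wvH L Y S T u ω nu y) p)).card * M ≤
      T.card * d * Fintype.card (Fin k → Fin U → Fin M) := by
  refine Finset.induction_on_max_value (lvH S ω) T ?_ ?_
  · intro _ _
    simp
  · intro e T heT hmax ih hTS hT
    have h1 := ih (fun x hx => hTS (mem_insert_of_mem hx)) (by
      intro x hx e' he' he'T
      by_cases h : e' = e
      · rw [h]
        exact hmax x hx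
      · exact hT x (mem_insert_of_mem hx) e' he' (by
          rw [mem_insert]
          exact fun h2 => h2.elim h he'T))
    have h2 := stepH hY S T ω nu hnu y p (hTS (mem_insert_self e T)) heT
      (fun e' he' h => hT e (mem_insert_self e T) e' he' h) (hp e (hTS (mem_insert_self e T)))
    have h3 : (univ.filter fun u : Fin k → Fin U → Fin M =>
        SignType.sign (MvPolynomial.eval (wvH L Y S ∅ u ω nu y) p) ≠
          SignType.sign (MvPolynomial.eval (wvH L Y S (insert e T) u ω nu y) p)).card ≤
        (univ.filter fun u : Fin k → Fin U → Fin M =>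
          SignType.sign (MvPolynomial.eval (wvH L Y S ∅ u ω nu y) p) ≠
            SignType.sign (MvPolynomial.eval (wvH L Y S T u ω nu y) p)).card +
        (univ.filter fun u : Fin k → Fin U → Fin M =>
          SignType.sign (MvPolynomial.eval (wvH L Y S T u ω nu y) p) ≠
            SignType.sign (MvPolynomial.eval (wvH L Y S (insert e T) u ω nu y) p)).card := by
      refine le_trans (card_le_card ?_) (card_union_le _ _)
      intro u hu
      rw [mem_filter] at hu
      rw [mem_union, mem_filter, mem_filter]
      by_contra h4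
      push Not at h4
      exact hu.2 ((h4.1 (mem_univ _)).trans (h4.2 (mem_univ _)))
    calc _ ≤ _ * M := Nat.mul_le_mul_right M h3
      _ = _ := add_mul _ _ _
      _ ≤ _ := Nat.add_le_add h1 h2
      _ = _ := by
        rw [card_insert_of_notMem heT]
        ring

open Classical in
/-- MIX, piece (H): if the values of the elements of `S` are replaced by their revealed parts, the sign of a
polynomial of degree at most `d` in each of them changes for at most a proportion `|S| d / M` of the masks. The
values `y` outside `S` are arbitrary. -/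
theorem hybridH {L Y d : ℕ} (hY : M ≤ Y) (S : Finset El) (ω : Om El k b U) (nu : El → ℤ)
    (hnu : ∀ e ∈ S, 0 ≤ nu e ∧ nu e < L) (y : El → ℝ) (p : MvPolynomial El ℝ)
    (hp : ∀ e ∈ S, p.degreeOf e ≤ d) :
    (univ.filter fun u : Fin k → Fin U → Fin M =>
      SignType.sign (MvPolynomial.eval (fun e => if e ∈ S then (fvH L Y u ω nu e : ℝ) else y e) p) ≠
        SignType.sign (MvPolynomial.eval
          (fun e => if e ∈ S then (rvH L Y S u ω nu e : ℝ) else y e) p)).card * M ≤
      S.card * d * Fintype.card (Fin k → Fin U → Fin M) := by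
  have h := hybridH_aux hY S ω nu hnu y p hp S (Subset.refl S)
    (fun _ _ e' he' h => absurd he' h)
  have h1 : ∀ u : Fin k → Fin U → Fin M, wvH L Y S ∅ u ω nu y =
      fun e => if e ∈ S then (fvH L Y u ω nu e : ℝ) else y e := by
    intro u
    funext e
    simp [wvH]
  have h2 : ∀ u : Fin k → Fin U → Fin M, wvH L Y S S u ω nu y =
      fun e => if e ∈ S then (rvH L Y S u ω nu e : ℝ) else y e := by
    intro u
    funext e
    by_cases he : e ∈ S
    · simp [wvH, he]
    · simp [wvH, he]
  simp only [h1, h2] at h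
  exact h

end hybrid

end Pool.Agent.Helper21.MX
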