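import Mathlib
import Pool.Agent.Helper87.MX.Fr3
import Pool.Agent.Helper25.MX.Sum
import Pool.Agent.Helper17.GH.Gap

/-!
# RG2: if the weighted sum of the measures converges there are atoms
-/

set_option autoImplicit false

open MeasureTheory Finset Filter

namespace Pool.Agent.Helper79.MX

open Pool.Agent.Helper87.MX

lemma log2_pos (j : ℕ) : 0 < Real.log ((j : ℝ) + 2) :=
  Real.log_pos (by
    have : (0 : ℝ) ≤ j := Nat.cast_nonneg j
    linarith)

lemma log_two_mul_le (j i : ℕ) (hi : i ≤ 1) :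
    Real.log (((2 * j + i : ℕ) : ℝ) + 2) ≤ 2 * Real.log ((j : ℝ) + 2) := by
  have hj : (0 : ℝ) ≤ j := Nat.cast_nonneg j
  have hi' : (i : ℝ) ≤ 1 := by exact_mod_cast hi
  have h1 : 2 * Real.log ((j : ℝ) + 2) = Real.log (((j : ℝ) + 2) ^ 2) := by
    rw [Real.log_pow]
    norm_num
  rw [h1]
  refine Real.log_le_log (by positivity) ?_
  push_cast
  nlinarith

lemma sum_pairs (b : ℕ → ℝ) (J : ℕ) :
    ∑ j ∈ range (2 * J), b j = ∑ j ∈ range J, (b (2 * j) + b (2 * j + 1)) := by
  induction J with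
  | zero => simp
  | succ J ih =>
    rw [show 2 * (J + 1) = 2 * J + 1 + 1 by ring, Finset.sum_range_succ, Finset.sum_range_succ,
      ih, Finset.sum_range_succ]
    ring

/-- the summation, for the scales themselves -/
theorem summable_ent_row {b H : ℕ → ℝ} (hb : ∀ j, 0 ≤ b j) (hH0 : ∀ K, 0 ≤ H K)
    (hH : ∀ K, H K ≤ ∑ j ∈ range K, b j)
    (hs : Summable fun j : ℕ => b j / Real.log ((j : ℝ) + 2)) :
    Summable fun i : ℕ => H (2 ^ 2 ^ i) / 2 ^ i := by
  refine Pool.Agent.Helper25.MX.summable_ent (a := fun j => b (2 * j) + b (2 * j + 1)) (C := 0)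
    (fun j => add_nonneg (hb _) (hb _)) hH0 ?_ ?_
  · intro K J hKJ
    rw [zero_add, ← sum_pairs]
    exact (hH K).trans (Finset.sum_le_sum_of_subset_of_nonneg
      (Finset.range_mono hKJ) fun j _ _ => hb j)
  · have h0 : Summable fun j : ℕ => b (2 * j) / Real.log (((2 * j : ℕ) : ℝ) + 2) :=
      hs.comp_injective (i := fun j : ℕ => 2 * j) (fun a b h => by simpa using h)
    have h1 : Summable fun j : ℕ => b (2 * j + 1) / Real.log (((2 * j + 1 : ℕ) : ℝ) + 2) :=
      hs.comp_injective (i := fun j : ℕ => 2 * j + 1) (fun a b h => by simpa using h)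
    refine Summable.of_nonneg_of_le (fun j => div_nonneg (add_nonneg (hb _) (hb _))
      (log2_pos j).le) (fun j => ?_) ((h0.add h1).mul_left 2)
    have hl := log2_pos j
    have key : ∀ i : ℕ, i ≤ 1 → b (2 * j + i) / Real.log ((j : ℝ) + 2) ≤
        2 * (b (2 * j + i) / Real.log (((2 * j + i : ℕ) : ℝ) + 2)) := by
      intro i hi
      have hl' := log2_pos (2 * j + i)
      have h2 := log_two_mul_le j i hi
      rw [← mul_div_assoc, div_le_div_iff₀ hl hl']
      have h3 := mul_le_mul_of_nonneg_left h2 (hb (2 * j + i))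
      nlinarith
    have k0 := key 0 (by omega)
    have k1 := key 1 (by omega)
    simp only [Nat.add_zero] at k0
    rw [add_div, mul_add]
    exact add_le_add k0 k1

lemma ent_nonneg (μ : Measure Tor) [IsProbabilityMeasure μ] (K : ℕ) : 0 ≤ ent μ K :=
  Finset.sum_nonneg fun i _ => Real.negMulLog_nonneg measureReal_nonneg measureReal_le_one

/-- RG2 -/
theorem s_RG2 (hARo : S_ARo) : S_RG2 := by
  intro μ hμ h2 h3 P hP hs
  by_contra hcon
  push Not at hcon
  have hb : ∀ j, 0 ≤ far μ (P j) + Real.negMulLog (far μ (P j)) := fun j =>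
    add_nonneg measureReal_nonneg (Real.negMulLog_nonneg measureReal_nonneg measureReal_le_one)
  have h := summable_ent_row hb (ent_nonneg μ) (hARo μ hμ h2 P hP) hs
  exact Helper17.GH.not_summable_ent h2 h3 hcon h

end Pool.Agent.Helper79.MX
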