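import Pool.Agent.Helper87.MX.Fr5

/-!
# MixingRates: mixing of order four of the first character, all invariant measures (S_UA)
-/

set_option autoImplicit false

open MeasureTheory Finset Filter

namespace Pool.Agent.Helper79.MX

open Pool.Agent.Helper87.MX

/-- the first coefficient of an invariant measure with mixing of order four is `0` or `1` -/
theorem s_UA (hBL : S_BL) (hDC : S_DC) (hNA : S_NA) (hPA : S_PA) : S_UA := by
  intro μ hμ h2 h3 g hg hmix
  by_cases h0 : μ {x | μ {x} = 0} = 0
  · exact Or.inr (hPA μ hμ h2 h3 h0 g hg hmix)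
  left
  by_contra hc
  obtain ⟨ν, hν, hν2, hν3, hat, C, hC, hle⟩ := hNA μ hμ h2 h3 h0
  have hinv : Inv g μ := by
    rcases hg with rfl | rfl
    · exact h2
    · exact h3
  have hg2 : 2 ≤ g := by
    rcases hg with rfl | rfl
    · exact le_refl 2
    · norm_num
  have hc' : cf μ ((1 : ℕ) : ℤ) ≠ 0 := by
    rw [Nat.cast_one]
    exact hc
  obtain ⟨F, κ, hκs, hκ, hF, hgood⟩ := hBL μ hμ g 1 hg2 hinv hc' hmix
  obtain ⟨x, hx⟩ := hDC ν hν hν2 hν3 g (cf μ ((1 : ℕ) : ℤ)) hg hc' F
    (fun N => min 1 (C * κ N))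
    (Summable.of_nonneg_of_le (fun N => le_min zero_le_one (mul_nonneg hC (hκ N).1))
      (fun N => min_le_right _ _) (hκs.mul_left C))
    (fun N => ⟨le_min zero_le_one (mul_nonneg hC (hκ N).1), min_le_left _ _⟩) hF
    (fun N => le_min measureReal_le_one
      ((hle _).trans (mul_le_mul_of_nonneg_left (hgood N) hC)))
  exact hx (hat x)

end Pool.Agent.Helper79.MX
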